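import Pool.Agent.helper5.SYM.SpecA

set_option autoImplicit false

namespace Pool.Agent.SYM
open Finset CT Polynomial

theorem RES_aux {D : Type} (τ τ' : D → D) (Q : D → Prop) (h2 : ∀ d, τ' (τ' d) = d)
    (h : ∀ d, ¬ Q d → τ d = τ' d) (φ : D → Bool) (h3 : ∀ d, φ (τ d) = φ d)
    (h4 : ∀ d, Q d → φ d = false) : ∀ d, φ (τ' d) = φ d := by
  intro d
  by_cases hd : Q d
  · by_cases hd' : Q (τ' d)
    · rw [h4 _ hd, h4 _ hd']
    · have h5 := h _ hd'
      rw [h2] at h5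
      rw [← h3 (τ' d), h5]
  · rw [← h d hd, h3]

theorem RES (hLBF : LBF_stmt) : RES_stmt := by
  intro D _ s τ τ' Q h1 h2 h
  have e1 := hLBF D s τ Q
  have e2 := hLBF D s τ' Q
  have e3 : Nat.card {φ : D → Bool // (∀ d, φ (s d) = φ d) ∧ (∀ d, φ (τ d) = φ d) ∧
      ∀ d, Q d → φ d = false} = Nat.card {φ : D → Bool // (∀ d, φ (s d) = φ d) ∧
      (∀ d, φ (τ' d) = φ d) ∧ ∀ d, Q d → φ d = false} := by
    refine Nat.card_congr (Equiv.subtypeEquivRight fun φ => ?_)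
    constructor
    · rintro ⟨a, b, c⟩
      exact ⟨a, RES_aux τ τ' Q h2 h φ b c, c⟩
    · rintro ⟨a, b, c⟩
      exact ⟨a, RES_aux τ' τ Q h1 (fun d hd => (h d hd).symm) φ b c, c⟩
  rw [e1, e2] at e3
  exact Nat.pow_right_injective (le_refl 2) e3

end Pool.Agent.SYM
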